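import Pool.Agent.R256.DC.Base

/-!
# Averages over cycles
-/

set_option autoImplicit false

namespace Pool.Agent.R256.DE

open Finset Equiv
open Pool.Agent.Y998.ST
open Pool.Agent.R256.DC

variable {V : Type} [Fintype V] [DecidableEq V]

open Classical in
/-- average of `f` over the cycle of `v` -/
noncomputable def Rv (f : V → ℝ) (g : Perm V) (v : V) : ℝ :=
  (∑ w, if g.SameCycle v w then f w else 0) / cycleLen g v

open Classical in
theorem len_sum (g : Perm V) (v : V) :
    (cycleLen g v : ℝ) = ∑ w, if g.SameCycle v w then (1 : ℝ) else 0 := by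
  unfold cycleLen
  rw [Nat.card_eq_fintype_card, Fintype.card_subtype, Finset.sum_boole]

theorem len_pos (g : Perm V) (v : V) : (0 : ℝ) < cycleLen g v := by
  classical
  rw [len_sum]
  refine lt_of_lt_of_le zero_lt_one ?_
  refine le_trans (le_of_eq ?_) (Finset.single_le_sum (f := fun w => if g.SameCycle v w then
    (1 : ℝ) else 0) (fun w _ => by positivity) (Finset.mem_univ v))
  beta_reduce
  rw [if_pos (Perm.SameCycle.refl g v)]

theorem len_same (g : Perm V) {v w : V} (h : g.SameCycle v w) : cycleLen g v = cycleLen g w := by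
  unfold cycleLen
  have : (fun x => g.SameCycle v x) = fun x => g.SameCycle w x := by
    funext x
    exact propext ⟨fun h1 => h.symm.trans h1, fun h1 => h.trans h1⟩
  simp only [this]

theorem Rv_same (f : V → ℝ) (g : Perm V) {v w : V} (h : g.SameCycle v w) :
    Rv f g v = Rv f g w := by
  unfold Rv
  have : ∀ x, g.SameCycle v x ↔ g.SameCycle w x := fun x =>
    ⟨fun h1 => h.symm.trans h1, fun h1 => h.trans h1⟩
  simp only [this, len_same g h]

theorem key (f s : V → ℝ) (g : Perm V) (hs : ∀ v w, g.SameCycle v w → s v = s w) :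
    ∑ v, s v * Rv f g v = ∑ v, s v * f v := by
  classical
  have h1 : ∀ v, s v * Rv f g v = ∑ w, (if g.SameCycle w v then s w * f w / cycleLen g w else 0) := by
    intro v
    unfold Rv
    rw [mul_div_assoc', Finset.mul_sum, Finset.sum_div]
    refine Finset.sum_congr rfl fun w _ => ?_
    by_cases h : g.SameCycle v w
    · rw [if_pos h, if_pos h.symm, hs v w h, len_same g h]
    · rw [if_neg h, if_neg fun h' => h h'.symm]
      simp
  rw [Finset.sum_congr rfl fun v _ => h1 v, Finset.sum_comm]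
  refine Finset.sum_congr rfl fun w _ => ?_
  have h2 : ∀ v, (if g.SameCycle w v then s w * f w / cycleLen g w else 0) =
      (s w * f w / cycleLen g w) * (if g.SameCycle w v then (1 : ℝ) else 0) := by
    intro v
    split_ifs <;> simp
  rw [Finset.sum_congr rfl fun v _ => h2 v, ← Finset.mul_sum, ← len_sum]
  have := (len_pos g w).ne'
  field_simp

/-- the averages over cycles are controlled by the averages over pieces of length `K` -/
theorem avg_le (f : V → ℝ) (g : Perm V) {K : ℕ} (hK : 0 < K) :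
    ∑ v, Rv f g v ^ 2 ≤ (1 / (K : ℝ) ^ 2) *
      ∑ v, (∑ i : Fin K, f ((g ^ ((i : ℕ) + 1)) v)) ^ 2 := by
  have hK0 : (0 : ℝ) < K := by exact_mod_cast hK
  obtain ⟨N, hN⟩ : ∃ N : V → ℝ, N = fun v => (1 / (K : ℝ)) *
    ∑ i : Fin K, f ((g ^ ((i : ℕ) + 1)) v) := ⟨_, rfl⟩
  have h1 : ∑ v, Rv f g v ^ 2 = ∑ v, Rv f g v * f v := by
    rw [← key f (Rv f g) g fun v w h => Rv_same f g h]
    exact Finset.sum_congr rfl fun v _ => sq _
  have h2 : ∀ i : ℕ, ∑ v, Rv f g v * f v = ∑ v, Rv f g v * f ((g ^ i) v) := by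
    intro i
    rw [← Equiv.sum_comp (g ^ i) (fun v => Rv f g v * f v)]
    refine Finset.sum_congr rfl fun v _ => ?_
    rw [← Rv_same f g (show g.SameCycle v ((g ^ i) v) from ⟨i, by rw [zpow_natCast]⟩)]
  have h3 : ∑ v, Rv f g v * N v = ∑ v, Rv f g v * f v := by
    rw [hN]
    calc ∑ v, Rv f g v * ((1 / (K : ℝ)) * ∑ i : Fin K, f ((g ^ ((i : ℕ) + 1)) v))
        = (1 / (K : ℝ)) * ∑ i : Fin K, ∑ v, Rv f g v * f ((g ^ ((i : ℕ) + 1)) v) := by
          rw [Finset.sum_comm, Finset.mul_sum]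
          refine Finset.sum_congr rfl fun v _ => ?_
          rw [Finset.mul_sum, Finset.mul_sum, Finset.mul_sum]
          refine Finset.sum_congr rfl fun i _ => ?_
          ring
      _ = (1 / (K : ℝ)) * ∑ _i : Fin K, ∑ v, Rv f g v * f v := by
          congr 1
          exact Finset.sum_congr rfl fun i _ => (h2 _).symm
      _ = _ := by
          rw [Finset.sum_const, Finset.card_univ, Fintype.card_fin, nsmul_eq_mul]
          field_simp
  have h4 : ∑ v, Rv f g v * N v ≤ ∑ v, (Rv f g v ^ 2 + N v ^ 2) / 2 :=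
    Finset.sum_le_sum fun v _ => by nlinarith [sq_nonneg (Rv f g v - N v)]
  rw [← Finset.sum_div, Finset.sum_add_distrib] at h4
  have h5 : ∑ v, N v ^ 2 = (1 / (K : ℝ) ^ 2) *
      ∑ v, (∑ i : Fin K, f ((g ^ ((i : ℕ) + 1)) v)) ^ 2 := by
    rw [hN, Finset.mul_sum]
    refine Finset.sum_congr rfl fun v _ => ?_
    rw [mul_pow, one_div_pow]
  rw [← h5]
  linarith

/-- comparison of the mean of a function of a piece of the cycle -/
theorem fun_le {J : V → V → ℝ} (t : ℝ) {K : ℕ} (v : V)
    (Φ : (Fin K → V) → ℝ) (M : ℝ) (h0 : ∀ y, 0 ≤ Φ y) (hM : ∀ y, Φ y ≤ M) (B : (Fin K → V) → ℝ)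
    (e : ℝ)
    (h : ∑ y : Fin K → V, |stirExp J t
      (fun g => if ∀ i : Fin K, (g ^ ((i : ℕ) + 1)) v = y i then 1 else 0) - B y| ≤ e)
    (hM0 : 0 ≤ M) :
    stirExp J t (fun g => Φ (fun i => (g ^ ((i : ℕ) + 1)) v)) ≤ ∑ y, B y * Φ y + M * e := by
  obtain ⟨A, hA⟩ : ∃ A : (Fin K → V) → ℝ, A = fun y => stirExp J t
      (fun g => if ∀ i : Fin K, (g ^ ((i : ℕ) + 1)) v = y i then 1 else 0) := ⟨_, rfl⟩
  have h1 : stirExp J t (fun g => Φ (fun i => (g ^ ((i : ℕ) + 1)) v)) = ∑ y, A y * Φ y := by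
    rw [hA]
    unfold stirExp
    simp only [Finset.sum_mul]
    rw [Finset.sum_comm]
    refine Finset.sum_congr rfl fun g _ => ?_
    rw [Finset.sum_eq_single (fun i : Fin K => (g ^ ((i : ℕ) + 1)) v)]
    · rw [if_pos fun _ => rfl, mul_one]
    · intro y _ hy
      rw [if_neg, mul_zero, zero_mul]
      intro h'
      exact hy (funext fun i => (h' i).symm)
    · intro h'
      exact absurd (Finset.mem_univ _) h'
  rw [h1]
  have h2 : ∀ y, A y * Φ y ≤ B y * Φ y + M * |A y - B y| := by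
    intro y
    have h3 : (A y - B y) * Φ y ≤ |A y - B y| * M :=
      (mul_le_mul_of_nonneg_right (le_abs_self _) (h0 y)).trans
        (mul_le_mul_of_nonneg_left (hM y) (abs_nonneg _))
    linarith
  calc ∑ y, A y * Φ y ≤ ∑ y, (B y * Φ y + M * |A y - B y|) := Finset.sum_le_sum fun y _ => h2 y
    _ = ∑ y, B y * Φ y + M * ∑ y, |A y - B y| := by
        rw [Finset.sum_add_distrib, Finset.mul_sum]
    _ ≤ _ := by
        have h4 : ∑ y, |A y - B y| ≤ e := by rw [hA]; exact h
        have := mul_le_mul_of_nonneg_left h4 hM0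
        linarith

end Pool.Agent.R256.DE
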