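import Pool.Agent.R256.DE.Late2

/-!
# Equidistribution of typical cycles
-/

set_option autoImplicit false

namespace Pool.Agent.R256.DE

open Finset Equiv
open Pool.Agent.Y998.ST
open Pool.Agent.R256.DC

open Classical in
theorem frac {d L : ℕ} [NeZero L] (S : Finset (Fin d → ZMod L)) (g : Perm (Fin d → ZMod L))
    (v : Fin d → ZMod L) :
    Rv (fS S) g v = (Nat.card {w : Fin d → ZMod L // g.SameCycle v w ∧ w ∈ S} : ℝ) /
      cycleLen g v - S.card / (L : ℝ) ^ d := by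
  have h1 : ∑ w, (if g.SameCycle v w then fS S w else 0) =
      (Nat.card {w : Fin d → ZMod L // g.SameCycle v w ∧ w ∈ S} : ℝ) -
        S.card / (L : ℝ) ^ d * cycleLen g v := by
    rw [len_sum, Nat.card_eq_fintype_card, Fintype.card_subtype, ← Finset.sum_boole,
      Finset.mul_sum, ← Finset.sum_sub_distrib]
    refine Finset.sum_congr rfl fun w _ => ?_
    unfold fS
    by_cases h2 : g.SameCycle v w <;> by_cases h3 : w ∈ S <;> simp [h2, h3]
  unfold Rv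
  rw [h1]
  have := (len_pos g v).ne'
  field_simp

theorem Rv_abs {d L : ℕ} [NeZero L] (S : Finset (Fin d → ZMod L)) (g : Perm (Fin d → ZMod L))
    (v : Fin d → ZMod L) : Rv (fS S) g v ^ 2 ≤ 1 := by
  classical
  have h1 : |∑ w, (if g.SameCycle v w then fS S w else 0)| ≤ cycleLen g v := by
    rw [len_sum]
    refine (Finset.abs_sum_le_sum_abs _ _).trans (Finset.sum_le_sum fun w _ => ?_)
    split_ifs
    · exact fS_abs S w
    · simp
  have h2 : |Rv (fS S) g v| ≤ 1 := by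
    unfold Rv
    rw [abs_div, abs_of_pos (len_pos g v), div_le_one (len_pos g v)]
    exact h1
  rw [← sq_abs]
  exact pow_le_one₀ (abs_nonneg _) h2

theorem lateR {d : ℕ} (hd : 1 ≤ d) : ∃ C : ℝ, 0 < C ∧ ∀ (L : ℕ) [NeZero L], 3 ≤ L →
    ∀ t : ℝ, (L : ℝ) ^ 2 ≤ t → ∀ (v : Fin d → ZMod L) (S : Finset (Fin d → ZMod L)),
      ∀ c : ℝ, 0 < c →
      stirExp (nnRate d L) t (fun g => Rv (fS S) g v ^ 2) ≤
        (1 / c ^ 2) * (C * L / Real.sqrt t + 3 / (L : ℝ) ^ d) + C * c ^ (1 / ((d : ℝ) + 3)) := by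
  classical
  obtain ⟨C₁, hC₁, h1⟩ := late2 (d := d) hd
  obtain ⟨C₂, hC₂, h2⟩ := Pool.Agent.Results.MP_6c3d62_pr.TypicalCycles.result d hd
  refine ⟨C₁ + C₂, by positivity, fun L _ hL t htL v S c hc => ?_⟩
  have hL1 : (1 : ℝ) ≤ L := by exact_mod_cast (show 1 ≤ L by omega)
  have hL0 : (0 : ℝ) < L := by linarith
  have ht1 : 1 ≤ t := le_trans (one_le_pow₀ hL1) htL
  have ht0 : 0 < t := by linarith
  have hst : 0 < Real.sqrt t := Real.sqrt_pos.2 ht0
  obtain ⟨K, hK⟩ : ∃ K : ℕ, K = ⌊c * (L : ℝ) ^ d⌋₊ := ⟨_, rfl⟩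
  obtain ⟨X, hX⟩ : ∃ X : Perm (Fin d → ZMod L) → ℝ, X = fun g =>
    (∑ w, if g.SameCycle v w then fS S w else 0) / (L : ℝ) ^ d := ⟨_, rfl⟩
  have hp : ∀ g : Perm (Fin d → ZMod L), Rv (fS S) g v ^ 2 ≤ (1 / c ^ 2) * X g ^ 2 +
      (if cycleLen g v ≤ K then 1 else 0) := by
    intro g
    by_cases hg : cycleLen g v ≤ K
    · rw [if_pos hg]
      have := Rv_abs S g v
      have : 0 ≤ (1 / c ^ 2) * X g ^ 2 := by positivity
      linarith
    · rw [if_neg hg, add_zero]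
      push Not at hg
      rw [hK] at hg
      have h3 : c * (L : ℝ) ^ d < cycleLen g v := Nat.lt_of_floor_lt hg
      rw [hX]
      unfold Rv
      beta_reduce
      rw [div_pow, div_pow]
      have h4 : (c * (L : ℝ) ^ d) ^ 2 ≤ (cycleLen g v : ℝ) ^ 2 :=
        pow_le_pow_left₀ (by positivity) h3.le 2
      calc _ ≤ (∑ w, if g.SameCycle v w then fS S w else 0) ^ 2 / (c * (L : ℝ) ^ d) ^ 2 :=
            div_le_div_of_nonneg_left (sq_nonneg _) (by positivity) h4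
        _ = _ := by field_simp
  have h3 : stirExp (nnRate d L) t (fun g => Rv (fS S) g v ^ 2) ≤
      (1 / c ^ 2) * stirExp (nnRate d L) t (fun g => X g ^ 2) +
        stirExp (nnRate d L) t (fun g => if cycleLen g v ≤ K then 1 else 0) := by
    refine (Pool.Agent.R256.DC.exp_mono nn_nonneg ht0.le hp).trans (le_of_eq ?_)
    unfold stirExp
    rw [Finset.mul_sum, ← Finset.sum_add_distrib]
    refine Finset.sum_congr rfl fun g _ => ?_
    ring
  have h4 : stirExp (nnRate d L) t (fun g => X g ^ 2) ≤ C₁ * L / Real.sqrt t + 3 / (L : ℝ) ^ d := by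
    rw [hX]
    exact h1 L hL t ht0 v S
  have hM2 : min (t ^ max ((d : ℝ) / 2) ((d : ℝ) - 1)) ((L : ℝ) ^ d) = (L : ℝ) ^ d := by
    refine min_eq_right ?_
    calc (L : ℝ) ^ d = ((L : ℝ) ^ 2) ^ ((d : ℝ) / 2) := by
          rw [← Real.rpow_natCast, ← Real.rpow_natCast, ← Real.rpow_mul hL0.le]
          congr 1
          push_cast
          ring
      _ ≤ t ^ ((d : ℝ) / 2) := Real.rpow_le_rpow (by positivity) htL (by positivity)
      _ ≤ _ := Real.rpow_le_rpow_of_exponent_le ht1 (le_max_left _ _)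
  have h5 := h2 L hL t ht0 v K
  rw [hM2] at h5
  have h6 : ((K : ℝ) / (L : ℝ) ^ d) ^ (1 / ((d : ℝ) + 3)) ≤ c ^ (1 / ((d : ℝ) + 3)) := by
    refine Real.rpow_le_rpow (by positivity) ?_ (by positivity)
    rw [div_le_iff₀ (by positivity), hK]
    exact Nat.floor_le (by positivity)
  have h7 : C₁ * L / Real.sqrt t ≤ (C₁ + C₂) * L / Real.sqrt t :=
    div_le_div_of_nonneg_right (mul_le_mul_of_nonneg_right (by linarith) hL0.le) hst.le
  have h8 : (1 / c ^ 2) * stirExp (nnRate d L) t (fun g => X g ^ 2) ≤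
      (1 / c ^ 2) * ((C₁ + C₂) * L / Real.sqrt t + 3 / (L : ℝ) ^ d) :=
    mul_le_mul_of_nonneg_left (h4.trans (by linarith)) (by positivity)
  have h9 : C₂ * ((K : ℝ) / (L : ℝ) ^ d) ^ (1 / ((d : ℝ) + 3)) ≤
      (C₁ + C₂) * c ^ (1 / ((d : ℝ) + 3)) :=
    mul_le_mul (by linarith) h6 (by positivity) (by positivity)
  linarith

open Classical in
theorem equi (d : ℕ) (hd : 3 ≤ d) (η : ℝ) (hη : 0 < η) :
    ∃ A : ℝ, 0 < A ∧ ∀ (L : ℕ) [NeZero L], A ≤ L → ∀ t : ℝ,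
      A * (L : ℝ) ^ (4 / (d : ℝ)) ≤ t → ∀ S : Finset (Fin d → ZMod L),
      (1 / (L : ℝ) ^ d) * ∑ v, stirExp (nnRate d L) t (fun g =>
        ((Nat.card {w : Fin d → ZMod L // g.SameCycle v w ∧ w ∈ S} : ℝ) / cycleLen g v -
          S.card / (L : ℝ) ^ d) ^ 2) ≤ η := by
  obtain ⟨C₁, hC₁, h1⟩ := mid d hd
  obtain ⟨C₂, hC₂, h2⟩ := lateR (d := d) (by omega)
  have hd3 : (3 : ℝ) ≤ d := by exact_mod_cast hd
  obtain ⟨c, hc, hcη⟩ : ∃ c : ℝ, 0 < c ∧ C₂ * c ^ (1 / ((d : ℝ) + 3)) ≤ η / 2 := by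
    refine ⟨(η / (2 * C₂)) ^ ((d : ℝ) + 3), by positivity, ?_⟩
    rw [← Real.rpow_mul (by positivity), mul_one_div_cancel (by positivity), Real.rpow_one]
    apply le_of_eq
    field_simp
  obtain ⟨A₂, hA₂⟩ : ∃ A₂ : ℝ, A₂ = (4 * C₂ / (c ^ 2 * η)) ^ 2 + 1 := ⟨_, rfl⟩
  have hA₂1 : 1 ≤ A₂ := by
    rw [hA₂]
    have : 0 ≤ (4 * C₂ / (c ^ 2 * η)) ^ 2 := by positivity
    linarith
  have hA₂0 : 0 < A₂ := by linarith
  obtain ⟨ε, hε, hε1, hε2⟩ : ∃ ε : ℝ, 0 < ε ∧ ε ≤ 1 ∧ ε ≤ η / 16 :=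
    ⟨min 1 (η / 16), lt_min one_pos (by positivity), min_le_left _ _, min_le_right _ _⟩
  obtain ⟨n, hn⟩ := exists_nat_gt (8 / (ε ^ 2 * η))
  have hn0 : (0 : ℝ) < n := lt_of_le_of_lt (by positivity) hn
  have hn1 : 0 < n := by exact_mod_cast hn0
  have hn2 : 2 / (ε ^ 2 * n) ≤ η / 4 := by
    rw [div_lt_iff₀ (by positivity)] at hn
    rw [div_le_div_iff₀ (by positivity) (by norm_num)]
    nlinarith
  have hn3 : 1 / (n : ℝ) ≤ η / 8 := by
    have h3 : ε ^ 2 ≤ 1 := pow_le_one₀ hε.le hε1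
    have h4 : 1 / (n : ℝ) ≤ 1 / (ε ^ 2 * n) := by
      refine one_div_le_one_div_of_le (by positivity) ?_
      exact mul_le_of_le_one_left hn0.le h3
    have h5 : 2 / (ε ^ 2 * n) = 2 * (1 / (ε ^ 2 * n)) := by ring
    linarith
  obtain ⟨G, hG⟩ : ∃ G : ℝ, G = n * (4 * (d : ℝ) ^ 2 + A₂) := ⟨_, rfl⟩
  have hG0 : 0 ≤ G := by rw [hG]; positivity
  obtain ⟨A, hA⟩ : ∃ A : ℝ, A = 3 + 12 / (c ^ 2 * η) + 2 * C₁ * (G + G ^ 2) / η := ⟨_, rfl⟩
  have hA3 : 3 ≤ A := by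
    rw [hA]
    have h3 : 0 ≤ 12 / (c ^ 2 * η) := by positivity
    have h4 : 0 ≤ 2 * C₁ * (G + G ^ 2) / η := by positivity
    linarith
  have hAk : 12 / (c ^ 2 * η) ≤ A := by
    rw [hA]
    have h4 : 0 ≤ 2 * C₁ * (G + G ^ 2) / η := by positivity
    linarith
  have hAG : 2 * C₁ * (G + G ^ 2) / η ≤ A := by
    rw [hA]
    have h3 : 0 ≤ 12 / (c ^ 2 * η) := by positivity
    linarith
  have hA0 : 0 < A := by linarith
  refine ⟨A, hA0, fun L _ hAL t htA S => ?_⟩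
  simp only [← frac]
  have hL3r : (3 : ℝ) ≤ L := hA3.trans hAL
  have hL : 3 ≤ L := by exact_mod_cast hL3r
  have hL1 : (1 : ℝ) ≤ L := by linarith
  have hL0 : (0 : ℝ) < L := by linarith
  have hLp : 1 ≤ (L : ℝ) ^ (4 / (d : ℝ)) := Real.one_le_rpow hL1 (by positivity)
  have ht3 : 3 ≤ t := by
    refine le_trans ?_ htA
    calc (3 : ℝ) = 3 * 1 := by norm_num
      _ ≤ _ := mul_le_mul hA3 hLp zero_le_one hA0.le
  have ht0 : 0 < t := by linarith
  rcases le_total (A₂ * (L : ℝ) ^ 2) t with htL | htL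
  · have htL2 : (L : ℝ) ^ 2 ≤ t := by
      refine le_trans ?_ htL
      exact le_mul_of_one_le_left (by positivity) hA₂1
    have h3 : 4 * C₂ / (c ^ 2 * η) * L ≤ Real.sqrt t := by
      apply Real.le_sqrt_of_sq_le
      refine le_trans ?_ htL
      rw [mul_pow]
      refine mul_le_mul_of_nonneg_right ?_ (by positivity)
      rw [hA₂]
      linarith
    have hst : 0 < Real.sqrt t := Real.sqrt_pos.2 ht0
    have h4 : C₂ * L / Real.sqrt t ≤ c ^ 2 * η / 4 := by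
      rw [div_le_iff₀ hst]
      have h5 : (c ^ 2 * η / 4) * (4 * C₂ / (c ^ 2 * η) * L) ≤ (c ^ 2 * η / 4) * Real.sqrt t :=
        mul_le_mul_of_nonneg_left h3 (by positivity)
      have h6 : (c ^ 2 * η / 4) * (4 * C₂ / (c ^ 2 * η) * L) = C₂ * L := by field_simp
      linarith
    have h5 : 3 / (L : ℝ) ^ d ≤ c ^ 2 * η / 4 := by
      have h6 : (L : ℝ) ≤ (L : ℝ) ^ d := le_self_pow₀ hL1 (by omega)
      have h7 : 12 / (c ^ 2 * η) ≤ (L : ℝ) ^ d := (hAk.trans hAL).trans h6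
      rw [div_le_iff₀ (by positivity)] at h7
      rw [div_le_div_iff₀ (by positivity) (by norm_num)]
      linarith
    have h6 : ∀ v, stirExp (nnRate d L) t (fun g => Rv (fS S) g v ^ 2) ≤ η := by
      intro v
      refine (h2 L hL t htL2 v S c hc).trans ?_
      have h7 : (1 / c ^ 2) * (C₂ * L / Real.sqrt t + 3 / (L : ℝ) ^ d) ≤
          (1 / c ^ 2) * (c ^ 2 * η / 4 + c ^ 2 * η / 4) :=
        mul_le_mul_of_nonneg_left (add_le_add h4 h5) (by positivity)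
      have h8 : (1 / c ^ 2) * (c ^ 2 * η / 4 + c ^ 2 * η / 4) = η / 2 := by
        field_simp
        ring
      linarith
    calc _ ≤ (1 / (L : ℝ) ^ d) * ∑ _v : Fin d → ZMod L, η :=
          mul_le_mul_of_nonneg_left (Finset.sum_le_sum fun v _ => h6 v) (by positivity)
      _ = η := by
          rw [Finset.sum_const, nsmul_eq_mul, card_V]
          field_simp
  · obtain ⟨m, hm⟩ : ∃ m : ℕ, m = ⌈4 * (d : ℝ) ^ 2 * (L : ℝ) ^ 2 / t⌉₊ := ⟨_, rfl⟩
    have hm0 : 0 < m := by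
      rw [hm]
      exact Nat.ceil_pos.2 (by positivity)
    have hm1 : 4 * (d : ℝ) ^ 2 * (L : ℝ) ^ 2 ≤ m * t := by
      rw [← div_le_iff₀ ht0, hm]
      exact Nat.le_ceil _
    have hm2 : (m : ℝ) ≤ (4 * (d : ℝ) ^ 2 + A₂) * (L : ℝ) ^ 2 / t := by
      have h3 : (m : ℝ) < 4 * (d : ℝ) ^ 2 * (L : ℝ) ^ 2 / t + 1 := by
        rw [hm]
        exact Nat.ceil_lt_add_one (by positivity)
      have h4 : 1 ≤ A₂ * (L : ℝ) ^ 2 / t := by
        rw [le_div_iff₀ ht0]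
        linarith
      have h5 : (4 * (d : ℝ) ^ 2 + A₂) * (L : ℝ) ^ 2 / t =
          4 * (d : ℝ) ^ 2 * (L : ℝ) ^ 2 / t + A₂ * (L : ℝ) ^ 2 / t := by ring
      linarith
    obtain ⟨K, hKdef⟩ : ∃ K : ℕ, K = m * n := ⟨_, rfl⟩
    have hKr : (K : ℝ) = m * n := by rw [hKdef]; push_cast; rfl
    have hmr : (1 : ℝ) ≤ m := by exact_mod_cast hm0
    have hK0 : 0 < K := by rw [hKdef]; positivity
    have hK0r : (0 : ℝ) < K := by exact_mod_cast hK0
    have hKn : (n : ℝ) ≤ K := by rw [hKr]; nlinarith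
    have hK : (K : ℝ) ≤ G * (L : ℝ) ^ 2 / t := by
      rw [hKr]
      calc (m : ℝ) * n ≤ ((4 * (d : ℝ) ^ 2 + A₂) * (L : ℝ) ^ 2 / t) * n :=
            mul_le_mul_of_nonneg_right hm2 (by positivity)
        _ = _ := by rw [hG]; ring
    refine (h1 L hL t (by linarith) ε hε hε1 K hK0 S).trans ?_
    have h3 : 1 / (K : ℝ) ≤ η / 8 := (one_div_le_one_div_of_le hn0 hKn).trans hn3
    have h3' : 2 * ((2 * d / ε) ^ 2 * (L : ℝ) ^ 2 / t / K) ≤ η / 4 := by
      refine le_trans ?_ hn2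
      have e1 : 2 / (ε ^ 2 * n) = 2 * (1 / (ε ^ 2 * n)) := by ring
      rw [e1]
      refine mul_le_mul_of_nonneg_left ?_ (by norm_num)
      rw [div_div, div_le_div_iff₀ (by positivity) (by positivity)]
      have e2 : (2 * (d : ℝ) / ε) ^ 2 * (L : ℝ) ^ 2 * (ε ^ 2 * n) =
          4 * (d : ℝ) ^ 2 * (L : ℝ) ^ 2 * n := by
        field_simp
        ring
      rw [e2, hKr]
      calc 4 * (d : ℝ) ^ 2 * (L : ℝ) ^ 2 * n ≤ m * t * n :=
            mul_le_mul_of_nonneg_right hm1 hn0.le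
        _ = _ := by ring
    have hAL2 : A * (L : ℝ) ^ 2 ≤ t ^ ((d : ℝ) / 2) := by
      calc A * (L : ℝ) ^ 2 = A ^ (1 : ℝ) * (L : ℝ) ^ 2 := by rw [Real.rpow_one]
        _ ≤ A ^ ((d : ℝ) / 2) * (L : ℝ) ^ 2 :=
            mul_le_mul_of_nonneg_right (Real.rpow_le_rpow_of_exponent_le (by linarith)
              (by linarith)) (by positivity)
        _ = (A * (L : ℝ) ^ (4 / (d : ℝ))) ^ ((d : ℝ) / 2) := by
            rw [Real.mul_rpow hA0.le (by positivity), ← Real.rpow_mul hL0.le,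
              ← Real.rpow_natCast (L : ℝ) 2]
            congr 2
            push_cast
            field_simp
            norm_num
        _ ≤ t ^ ((d : ℝ) / 2) := Real.rpow_le_rpow (by positivity) htA (by positivity)
    have hAL4 : A * (L : ℝ) ^ 4 ≤ t * (L : ℝ) ^ d := by
      calc A * (L : ℝ) ^ 4 ≤ A * (L : ℝ) ^ (4 / (d : ℝ) + d) := by
            refine mul_le_mul_of_nonneg_left ?_ hA0.le
            rw [← Real.rpow_natCast (L : ℝ) 4]
            refine Real.rpow_le_rpow_of_exponent_le hL1 ?_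
            push_cast
            have h4 : 4 / (d : ℝ) + d = 4 + (d - 2) ^ 2 / d := by
              field_simp
              ring
            rw [h4]
            have : 0 ≤ ((d : ℝ) - 2) ^ 2 / d := by positivity
            linarith
        _ = A * (L : ℝ) ^ (4 / (d : ℝ)) * (L : ℝ) ^ d := by
            rw [Real.rpow_add hL0, Real.rpow_natCast]
            ring
        _ ≤ t * (L : ℝ) ^ d := mul_le_mul_of_nonneg_right htA (by positivity)
    have htd : 0 < t ^ ((d : ℝ) / 2) := Real.rpow_pos_of_pos ht0 _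
    have h4 : (K : ℝ) * t ^ (1 - (d : ℝ) / 2) ≤ G / A := by
      rw [Real.rpow_sub ht0, Real.rpow_one]
      calc (K : ℝ) * (t / t ^ ((d : ℝ) / 2))
          ≤ (G * (L : ℝ) ^ 2 / t) * (t / t ^ ((d : ℝ) / 2)) :=
            mul_le_mul_of_nonneg_right hK (by positivity)
        _ = G * (L : ℝ) ^ 2 / t ^ ((d : ℝ) / 2) := by field_simp
        _ ≤ G / A := by
            rw [div_le_div_iff₀ htd hA0]
            calc G * (L : ℝ) ^ 2 * A = G * (A * (L : ℝ) ^ 2) := by ring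
              _ ≤ _ := mul_le_mul_of_nonneg_left hAL2 hG0
    have h5 : (K : ℝ) ^ 2 * t / (L : ℝ) ^ d ≤ G ^ 2 / A := by
      calc (K : ℝ) ^ 2 * t / (L : ℝ) ^ d
          ≤ (G * (L : ℝ) ^ 2 / t) ^ 2 * t / (L : ℝ) ^ d :=
            div_le_div_of_nonneg_right (mul_le_mul_of_nonneg_right
              (pow_le_pow_left₀ (by positivity) hK 2) ht0.le) (by positivity)
        _ = G ^ 2 * (L : ℝ) ^ 4 / (t * (L : ℝ) ^ d) := by
            field_simp
        _ ≤ G ^ 2 / A := by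
            rw [div_le_div_iff₀ (by positivity) hA0]
            calc G ^ 2 * (L : ℝ) ^ 4 * A = G ^ 2 * (A * (L : ℝ) ^ 4) := by ring
              _ ≤ _ := mul_le_mul_of_nonneg_left hAL4 (by positivity)
    have h6 : C₁ * ((K : ℝ) * t ^ (1 - (d : ℝ) / 2) +
        (K : ℝ) ^ 2 * t / (L : ℝ) ^ d) ≤ η / 2 := by
      calc _ ≤ C₁ * (G / A + G ^ 2 / A) := mul_le_mul_of_nonneg_left (add_le_add h4 h5) hC₁.le
        _ = C₁ * (G + G ^ 2) / A := by ring
        _ ≤ η / 2 := by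
            rw [div_le_iff₀ hA0]
            rw [div_le_iff₀ hη] at hAG
            linarith
    linarith

end Pool.Agent.R256.DE
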