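import Pool.Agent.R256.DE.Middle
import Pool.Agent.Results.MP_6c3d62_pr.TypicalCycles

/-!
# Equidistribution of typical cycles, times above `L²`
-/

set_option autoImplicit false

namespace Pool.Agent.R256.DE

open Finset Equiv
open Pool.Agent.Y998.ST
open Pool.Agent.R256.DC
open Pool.Agent.TH268.PD (ret ret_spec)
open Pool.Agent.Y998.LP (NN)

open Classical in
/-- three points in one cycle -/
noncomputable def G3 (π : Perm (Fin 3)) : ℝ :=
  if π.SameCycle 0 1 ∧ π.SameCycle 0 2 then 1 else 0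

/-- three points in one cycle of a uniform permutation -/
noncomputable def p3 : ℝ := (∑ π, G3 π) / ((3 : ℕ).factorial : ℝ)

theorem G3_abs (π : Perm (Fin 3)) : |G3 π| ≤ 1 := by
  unfold G3
  split_ifs <;> norm_num

theorem p3_nonneg : 0 ≤ p3 := by
  unfold p3
  refine div_nonneg (Finset.sum_nonneg fun π _ => ?_) (by positivity)
  unfold G3
  split_ifs <;> norm_num

theorem p3_le : p3 ≤ 1 := by
  unfold p3
  rw [div_le_one (by positivity)]
  calc ∑ π, G3 π ≤ ∑ _π : Perm (Fin 3), (1 : ℝ) :=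
        Finset.sum_le_sum fun π _ => (le_abs_self _).trans (G3_abs π)
    _ = _ := by
        rw [Finset.sum_const, Finset.card_univ, Fintype.card_perm, Fintype.card_fin, nsmul_eq_mul,
          mul_one]

open Classical in
/-- probability that `v, a, b` are in one cycle -/
noncomputable def P3 {d L : ℕ} [NeZero L] (t : ℝ) (v a b : Fin d → ZMod L) : ℝ :=
  stirExp (nnRate d L) t (fun g => if g.SameCycle v a ∧ g.SameCycle v b then 1 else 0)

theorem pair {d : ℕ} (hd : 1 ≤ d) : ∃ C : ℝ, 0 < C ∧ ∀ (L : ℕ) [NeZero L], 3 ≤ L →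
    ∀ t : ℝ, 0 < t → ∀ v a b : Fin d → ZMod L, v ≠ a → v ≠ b → a ≠ b →
      |P3 t v a b - p3| ≤ C * L / Real.sqrt t := by
  obtain ⟨C, hC, h⟩ := Pool.Agent.Y998.LQ.t_dist d hd
  have hd0 : (0 : ℝ) < d := by exact_mod_cast hd
  refine ⟨3 * (C * d), by positivity, fun L _ hL t ht v a b hva hvb hab => ?_⟩
  have hst : 0 < Real.sqrt t := Real.sqrt_pos.2 ht
  have hL0 : (0 : ℝ) < L := by exact_mod_cast (show 0 < L by omega)
  obtain ⟨e, he⟩ : ∃ e : Fin 3 → Fin d → ZMod L, e = ![v, a, b] := ⟨_, rfl⟩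
  have he0 : e 0 = v := by rw [he]; rfl
  have he1 : e 1 = a := by rw [he]; rfl
  have he2 : e 2 = b := by rw [he]; rfl
  have hinj : Function.Injective e := by
    intro i j hij
    fin_cases i <;> fin_cases j <;> simp_all
  obtain ⟨η, hη⟩ : ∃ η : ℝ, η = C * d * L / Real.sqrt t := ⟨_, rfl⟩
  have hη0 : 0 ≤ η := by rw [hη]; positivity
  have hNN : ∀ i j, NN (nnRate d L) t (swap (e i) (e j)) ≤ η := by
    intro i j
    refine (h L hL t ht (e i) (e j)).trans ?_
    rw [hη]
    refine div_le_div_of_nonneg_right ?_ hst.le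
    have h1 : (Pool.Agent.Y998.LP.tdist (e i) (e j) : ℝ) ≤ d * L := by
      have h2 : Pool.Agent.Y998.LP.tdist (e i) (e j) ≤ ∑ _i : Fin d, L := by
        unfold Pool.Agent.Y998.LP.tdist
        refine Finset.sum_le_sum fun i _ => ?_
        exact (ZMod.natAbs_valMinAbs_le _).trans (Nat.div_le_self _ _)
      rw [Finset.sum_const, Finset.card_univ, Fintype.card_fin, smul_eq_mul] at h2
      exact_mod_cast h2
    calc C * (Pool.Agent.Y998.LP.tdist (e i) (e j) : ℝ) ≤ C * (d * L) :=
          mul_le_mul_of_nonneg_left h1 hC.le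
      _ = C * d * L := by ring
  have h1 := Pool.Agent.Y998.LQ.ind_mean (nnRate d L) t e hinj η hη0 hNN G3 1 zero_le_one G3_abs
  obtain ⟨_, _, _, hsc⟩ := ret_spec 3 e hinj
  have h2 : P3 t v a b = ∑ g, stirLaw (nnRate d L) t g * G3 (ret 3 e g) := by
    unfold P3 stirExp G3
    refine Finset.sum_congr rfl fun g _ => ?_
    have h3 : ((ret 3 e g).SameCycle 0 1 ∧ (ret 3 e g).SameCycle 0 2) ↔
        (g.SameCycle v a ∧ g.SameCycle v b) := by
      rw [hsc, hsc, he0, he1, he2]
    beta_reduce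
    by_cases h4 : g.SameCycle v a ∧ g.SameCycle v b
    · rw [if_pos h4, if_pos (h3.2 h4)]
    · rw [if_neg h4, if_neg fun h5 => h4 (h3.1 h5)]
  rw [h2]
  unfold p3
  refine h1.trans (le_of_eq ?_)
  rw [hη]
  push_cast
  ring

theorem P3_bd {d L : ℕ} [NeZero L] {t : ℝ} (ht : 0 ≤ t) (v a b : Fin d → ZMod L) :
    |P3 t v a b - p3| ≤ 1 := by
  have h1 : 0 ≤ P3 t v a b := by
    unfold P3
    refine le_trans (le_of_eq (exp_const (nnRate d L) t 0).symm)
      (Pool.Agent.R256.DC.exp_mono nn_nonneg ht fun g => ?_)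
    split_ifs <;> norm_num
  have h2 : P3 t v a b ≤ 1 := by
    unfold P3
    refine le_trans (Pool.Agent.R256.DC.exp_mono nn_nonneg ht (G := fun _ => 1) fun g => ?_)
      (le_of_eq (exp_const (nnRate d L) t 1))
    split_ifs <;> norm_num
  have := p3_nonneg
  have := p3_le
  rw [abs_le]
  constructor <;> linarith

open Classical in
theorem late2 {d : ℕ} (hd : 1 ≤ d) : ∃ C : ℝ, 0 < C ∧ ∀ (L : ℕ) [NeZero L], 3 ≤ L →
    ∀ t : ℝ, 0 < t → ∀ (v : Fin d → ZMod L) (S : Finset (Fin d → ZMod L)),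
      stirExp (nnRate d L) t (fun g => ((∑ w, if g.SameCycle v w then fS S w else 0) /
        (L : ℝ) ^ d) ^ 2) ≤ C * L / Real.sqrt t + 3 / (L : ℝ) ^ d := by
  obtain ⟨C, hC, h⟩ := pair (d := d) hd
  refine ⟨C, hC, fun L _ hL t ht v S => ?_⟩
  have hst : 0 < Real.sqrt t := Real.sqrt_pos.2 ht
  have hL0 : (0 : ℝ) < L := by exact_mod_cast (show 0 < L by omega)
  obtain ⟨N, hN⟩ : ∃ N : ℝ, N = (L : ℝ) ^ d := ⟨_, rfl⟩
  have hN0 : 0 < N := by rw [hN]; positivity
  have hcard : ((Finset.univ : Finset (Fin d → ZMod L)).card : ℝ) = N := by rw [hN, card_V]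
  obtain ⟨η, hη⟩ : ∃ η : ℝ, η = C * L / Real.sqrt t := ⟨_, rfl⟩
  have hη0 : 0 ≤ η := by rw [hη]; positivity
  have e1 : stirExp (nnRate d L) t (fun g => ((∑ w, if g.SameCycle v w then fS S w else 0) /
        (L : ℝ) ^ d) ^ 2) = (1 / N ^ 2) * ∑ a, ∑ b, fS S a * fS S b * P3 t v a b := by
    unfold P3 stirExp
    simp only [Finset.mul_sum]
    rw [Finset.sum_congr rfl fun a _ => Finset.sum_comm, Finset.sum_comm]
    refine Finset.sum_congr rfl fun g _ => ?_
    rw [div_pow, sq (∑ w, if g.SameCycle v w then fS S w else 0), Finset.sum_mul_sum,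
      Finset.sum_div, Finset.mul_sum]
    refine Finset.sum_congr rfl fun a _ => ?_
    rw [Finset.sum_div, Finset.mul_sum]
    refine Finset.sum_congr rfl fun b _ => ?_
    rw [hN]
    by_cases h1 : g.SameCycle v a <;> by_cases h2 : g.SameCycle v b <;> simp [h1, h2]
    ring
  have e2 : ∑ a, ∑ b, fS S a * fS S b * P3 t v a b =
      ∑ a, ∑ b, fS S a * fS S b * (P3 t v a b - p3) := by
    have e3 : ∑ a, ∑ b, fS S a * fS S b * p3 = 0 := by
      simp only [← Finset.sum_mul, ← Finset.mul_sum, fS_sum, mul_zero, zero_mul,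
        Finset.sum_const_zero]
    have e4 : ∀ a b, fS S a * fS S b * (P3 t v a b - p3) =
        fS S a * fS S b * P3 t v a b - fS S a * fS S b * p3 := fun a b => by ring
    simp only [e4, Finset.sum_sub_distrib]
    rw [e3, sub_zero]
  have e5 : ∀ a b, fS S a * fS S b * (P3 t v a b - p3) ≤
      η + ((if a = b then 1 else 0) + (if a = v then 1 else 0) + (if b = v then 1 else 0)) := by
    intro a b
    refine (le_abs_self _).trans ?_
    rw [abs_mul, abs_mul]
    have h1 : |fS S a| * |fS S b| ≤ 1 := by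
      calc _ ≤ (1 : ℝ) * 1 := mul_le_mul (fS_abs S a) (fS_abs S b) (abs_nonneg _) zero_le_one
        _ = 1 := one_mul 1
    have h2 : |fS S a| * |fS S b| * |P3 t v a b - p3| ≤ |P3 t v a b - p3| :=
      mul_le_of_le_one_left (abs_nonneg _) h1
    refine h2.trans ?_
    by_cases hab : a = b
    · rw [if_pos hab]
      have := P3_bd ht.le v a b
      have h3 : (0 : ℝ) ≤ if a = v then 1 else 0 := by split_ifs <;> norm_num
      have h4 : (0 : ℝ) ≤ if b = v then 1 else 0 := by split_ifs <;> norm_num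
      linarith
    · by_cases hav : a = v
      · rw [if_pos hav, if_neg hab]
        have := P3_bd ht.le v a b
        have h4 : (0 : ℝ) ≤ if b = v then 1 else 0 := by split_ifs <;> norm_num
        linarith
      · by_cases hbv : b = v
        · rw [if_neg hab, if_neg hav, if_pos hbv]
          have := P3_bd ht.le v a b
          linarith
        · rw [if_neg hab, if_neg hav, if_neg hbv]
          have := h L hL t ht v a b (fun h' => hav h'.symm) (fun h' => hbv h'.symm) hab
          rw [← hη] at this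
          linarith
  have e6 : ∑ a, ∑ b, (η + ((if a = b then 1 else 0) + (if a = v then 1 else 0) +
      (if b = v then (1 : ℝ) else 0))) = η * N ^ 2 + 3 * N := by
    simp only [Finset.sum_add_distrib, Finset.sum_const, nsmul_eq_mul, hcard,
      Finset.sum_ite_eq, Finset.sum_ite_eq', Finset.mem_univ, if_true, mul_one]
    rw [← Finset.mul_sum, Finset.sum_ite_eq' Finset.univ v, if_pos (Finset.mem_univ _)]
    ring
  rw [e1, e2, ← hη, ← hN]
  have e7 : ∑ a, ∑ b, fS S a * fS S b * (P3 t v a b - p3) ≤ η * N ^ 2 + 3 * N := by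
    rw [← e6]
    exact Finset.sum_le_sum fun a _ => Finset.sum_le_sum fun b _ => e5 a b
  calc _ ≤ (1 / N ^ 2) * (η * N ^ 2 + 3 * N) := mul_le_mul_of_nonneg_left e7 (by positivity)
    _ = _ := by field_simp

end Pool.Agent.R256.DE
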