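import Pool.Agent.R256.DE.Walk
import Pool.Agent.R256.DE.Cyc

/-!
# Equidistribution of typical cycles, times below `L²`
-/

set_option autoImplicit false

namespace Pool.Agent.R256.DE

open Finset Equiv
open Pool.Agent.Y998.ST
open Pool.Agent.R256.DC

/-- the centred indicator function of `S` -/
noncomputable def fS {d L : ℕ} (S : Finset (Fin d → ZMod L)) (x : Fin d → ZMod L) : ℝ :=
  (if x ∈ S then 1 else 0) - S.card / (L : ℝ) ^ d

theorem card_V {d L : ℕ} [NeZero L] :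
    ((Finset.univ : Finset (Fin d → ZMod L)).card : ℝ) = (L : ℝ) ^ d := by
  rw [Finset.card_univ, Fintype.card_fun, ZMod.card, Fintype.card_fin]
  push_cast
  rfl

theorem fS_sum {d L : ℕ} [NeZero L] (S : Finset (Fin d → ZMod L)) : ∑ x, fS S x = 0 := by
  have hL0 : (0 : ℝ) < L := by exact_mod_cast Nat.pos_of_ne_zero (NeZero.ne L)
  unfold fS
  rw [Finset.sum_sub_distrib, Finset.sum_const, nsmul_eq_mul, card_V, Finset.sum_boole]
  have : (Finset.univ.filter (fun x => x ∈ S)) = S := by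
    ext x
    simp
  rw [this]
  field_simp
  ring

theorem fS_abs {d L : ℕ} [NeZero L] (S : Finset (Fin d → ZMod L)) (x : Fin d → ZMod L) :
    |fS S x| ≤ 1 := by
  have hL0 : (0 : ℝ) < L := by exact_mod_cast Nat.pos_of_ne_zero (NeZero.ne L)
  have h1 : (S.card : ℝ) / (L : ℝ) ^ d ≤ 1 := by
    rw [div_le_one (by positivity), ← card_V]
    exact_mod_cast Finset.card_le_card (Finset.subset_univ S)
  have h2 : 0 ≤ (S.card : ℝ) / (L : ℝ) ^ d := by positivity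
  unfold fS
  rw [abs_le]
  split_ifs <;> constructor <;> linarith

theorem S1_bd {d L : ℕ} [NeZero L] (hd : 1 ≤ d) (hL : 3 ≤ L) {ε : ℝ} (hε : 0 < ε) (hε1 : ε ≤ 1)
    {t : ℝ} (ht : 0 < t) (S : Finset (Fin d → ZMod L)) (m : ℕ) (w : Fin d → ZMod L) :
    |∑ y, PW (qq (nnRate d L) t) m w y * ∑ i, fS S (y i)| ≤
      (2 * d / ε) ^ 2 * (L : ℝ) ^ 2 / t + ε * m := by
  have hL0 : (0 : ℝ) < L := by exact_mod_cast Nat.pos_of_ne_zero (NeZero.ne L)
  obtain ⟨M, hM⟩ : ∃ M : ℝ, M = (2 * d / ε) ^ 2 * (L : ℝ) ^ 2 := ⟨_, rfl⟩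
  rw [← hM]
  have hM0 : 0 ≤ M := by rw [hM]; positivity
  rw [S1_eq (qq_row _ _)]
  have hterm : ∀ j : ℕ, |∑ x, (qq (nnRate d L) t ^ (j + 1)) w x * fS S x| ≤
      ε + (if ((j : ℝ) + 1) * t < M then 1 else 0) := by
    intro j
    rw [qq_pow nn_symm (nn_diag hL)]
    push_cast
    have hjt : 0 ≤ ((j : ℝ) + 1) * t := by positivity
    by_cases h : ((j : ℝ) + 1) * t < M
    · rw [if_pos h]
      refine (Finset.abs_sum_le_sum_abs _ _).trans ?_
      have h1 : ∀ x, |qq (nnRate d L) (((j : ℝ) + 1) * t) w x * fS S x| ≤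
          qq (nnRate d L) (((j : ℝ) + 1) * t) w x := by
        intro x
        have h2 := qq_nonneg (nn_nonneg (d := d) (L := L)) hjt w x
        rw [abs_mul, abs_of_nonneg h2]
        exact mul_le_of_le_one_right h2 (fS_abs S x)
      refine (Finset.sum_le_sum fun x _ => h1 x).trans ?_
      rw [qq_row]
      linarith
    · rw [if_neg h, add_zero]
      push Not at h
      rw [hM] at h
      have h1 : ∑ x, qq (nnRate d L) (((j : ℝ) + 1) * t) w x * fS S x =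
          ∑ x, (qq (nnRate d L) (((j : ℝ) + 1) * t) w x - 1 / (L : ℝ) ^ d) * fS S x := by
        simp only [sub_mul]
        rw [Finset.sum_sub_distrib, ← Finset.mul_sum, fS_sum, mul_zero, sub_zero]
      rw [h1]
      refine (Finset.abs_sum_le_sum_abs _ _).trans ?_
      have h2 : ∀ x, |(qq (nnRate d L) (((j : ℝ) + 1) * t) w x - 1 / (L : ℝ) ^ d) * fS S x| ≤
          ε / (L : ℝ) ^ d := by
        intro x
        rw [abs_mul]
        calc _ ≤ ε / (L : ℝ) ^ d * 1 := mul_le_mul (mix hd hL hε hε1 h w x) (fS_abs S x)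
              (abs_nonneg _) (by positivity)
          _ = _ := mul_one _
      refine (Finset.sum_le_sum fun x _ => h2 x).trans ?_
      rw [Finset.sum_const, nsmul_eq_mul, card_V]
      apply le_of_eq
      field_simp
  refine (Finset.abs_sum_le_sum_abs _ _).trans ?_
  refine (Finset.sum_le_sum fun j _ => hterm j).trans ?_
  rw [Finset.sum_add_distrib, Finset.sum_const, nsmul_eq_mul, Finset.card_range,
    Finset.sum_boole]
  have h3 : ((Finset.range m).filter (fun j : ℕ => ((j : ℝ) + 1) * t < M)) ⊆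
      Finset.range ⌊M / t⌋₊ := by
    intro j hj
    rw [Finset.mem_filter] at hj
    rw [Finset.mem_range]
    have h4 : ((j + 1 : ℕ) : ℝ) ≤ M / t := by
      push_cast
      rw [le_div_iff₀ ht]
      exact hj.2.le
    have := Nat.le_floor h4
    omega
  have h5 : ((((Finset.range m).filter (fun j : ℕ => ((j : ℝ) + 1) * t < M)).card : ℕ) : ℝ) ≤
      M / t := by
    refine le_trans ?_ (Nat.floor_le (by positivity : 0 ≤ M / t))
    have := Finset.card_le_card h3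
    rw [Finset.card_range] at this
    exact_mod_cast this
  linarith

theorem walk2 {d L : ℕ} [NeZero L] (hd : 1 ≤ d) (hL : 3 ≤ L) {ε : ℝ} (hε : 0 < ε) (hε1 : ε ≤ 1)
    {t : ℝ} (ht : 0 < t) (S : Finset (Fin d → ZMod L)) (K : ℕ) (v : Fin d → ZMod L) :
    ∑ y, PW (qq (nnRate d L) t) K v y * (∑ i, fS S (y i)) ^ 2 ≤
      K * (1 + 2 * ((2 * d / ε) ^ 2 * (L : ℝ) ^ 2 / t + ε * K)) := by
  refine S2_le (qq_nonneg nn_nonneg ht.le) (qq_row _ _) (fS S) (fS_abs S) _ K ?_ v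
  intro m hm w
  refine (S1_bd hd hL hε hε1 ht S m w).trans ?_
  have : (m : ℝ) ≤ K := by exact_mod_cast hm.le
  have := mul_le_mul_of_nonneg_left this hε.le
  linarith

theorem stir2 (d : ℕ) (hd : 3 ≤ d) : ∃ C : ℝ, 0 < C ∧ ∀ (L : ℕ) [NeZero L], 3 ≤ L →
    ∀ (t : ℝ), 1 ≤ t → ∀ ε : ℝ, 0 < ε → ε ≤ 1 → ∀ (K : ℕ) (v : Fin d → ZMod L)
      (S : Finset (Fin d → ZMod L)),
      stirExp (nnRate d L) t (fun g => (∑ i : Fin K, fS S ((g ^ ((i : ℕ) + 1)) v)) ^ 2) ≤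
        K * (1 + 2 * ((2 * d / ε) ^ 2 * (L : ℝ) ^ 2 / t + ε * K)) +
        (K : ℝ) ^ 2 * (C * (K * t ^ (1 - (d : ℝ) / 2) + (K : ℝ) ^ 2 * t / (L : ℝ) ^ d)) := by
  obtain ⟨C, hC, h⟩ := Pool.Agent.Results.MP_6c3d62_pr.CyclesFollowRandomWalk.result d hd
  refine ⟨C, hC, fun L _ hL t ht ε hε hε1 K v S => ?_⟩
  have h1 := (h L hL t ht K v).2
  have h2 := fun_le (J := nnRate d L) t v (fun y : Fin K → Fin d → ZMod L =>
    (∑ i, fS S (y i)) ^ 2) ((K : ℝ) ^ 2) (fun y => sq_nonneg _) (fun y => ?_)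
    (PW (qq (nnRate d L) t) K v) _ h1 (sq_nonneg _)
  · refine h2.trans (add_le_add ?_ le_rfl)
    exact walk2 (by omega) hL hε hε1 (by linarith) S K v
  · rw [← sq_abs]
    refine pow_le_pow_left₀ (abs_nonneg _) ?_ 2
    refine (Finset.abs_sum_le_sum_abs _ _).trans ?_
    refine (Finset.sum_le_sum fun i _ => fS_abs S (y i)).trans ?_
    rw [Finset.sum_const, Finset.card_univ, Fintype.card_fin, nsmul_eq_mul, mul_one]

/-- mean square deviation of the proportion of `S` in typical cycles -/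
theorem mid (d : ℕ) (hd : 3 ≤ d) : ∃ C : ℝ, 0 < C ∧ ∀ (L : ℕ) [NeZero L], 3 ≤ L →
    ∀ (t : ℝ), 1 ≤ t → ∀ ε : ℝ, 0 < ε → ε ≤ 1 → ∀ (K : ℕ), 0 < K →
      ∀ (S : Finset (Fin d → ZMod L)),
      (1 / (L : ℝ) ^ d) * ∑ v, stirExp (nnRate d L) t (fun g => Rv (fS S) g v ^ 2) ≤
        1 / K + 2 * ((2 * d / ε) ^ 2 * (L : ℝ) ^ 2 / t / K) + 2 * ε +
          C * (K * t ^ (1 - (d : ℝ) / 2) + (K : ℝ) ^ 2 * t / (L : ℝ) ^ d) := by
  obtain ⟨C, hC, h⟩ := stir2 d hd
  refine ⟨C, hC, fun L _ hL t ht ε hε hε1 K hK S => ?_⟩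
  have hL0 : (0 : ℝ) < L := by exact_mod_cast (show 0 < L by omega)
  have hK0 : (0 : ℝ) < K := by exact_mod_cast hK
  have h1 : ∑ v, stirExp (nnRate d L) t (fun g => Rv (fS S) g v ^ 2) ≤
      (1 / (K : ℝ) ^ 2) * ∑ v, stirExp (nnRate d L) t
        (fun g => (∑ i : Fin K, fS S ((g ^ ((i : ℕ) + 1)) v)) ^ 2) := by
    unfold stirExp
    rw [Finset.sum_comm, Finset.sum_comm (s := (Finset.univ : Finset (Fin d → ZMod L))),
      Finset.mul_sum]
    refine Finset.sum_le_sum fun g _ => ?_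
    rw [← Finset.mul_sum, ← Finset.mul_sum]
    have h2 := mul_le_mul_of_nonneg_left (avg_le (fS S) g hK)
      (law_nonneg (nn_nonneg (d := d) (L := L)) (by linarith : (0 : ℝ) ≤ t) g)
    linarith
  obtain ⟨X, hX⟩ : ∃ X : ℝ, X = K * (1 + 2 * ((2 * d / ε) ^ 2 * (L : ℝ) ^ 2 / t + ε * K)) +
        (K : ℝ) ^ 2 * (C * (K * t ^ (1 - (d : ℝ) / 2) + (K : ℝ) ^ 2 * t / (L : ℝ) ^ d)) := ⟨_, rfl⟩
  have h3 : ∑ v, stirExp (nnRate d L) t
        (fun g => (∑ i : Fin K, fS S ((g ^ ((i : ℕ) + 1)) v)) ^ 2) ≤ (L : ℝ) ^ d * X := by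
    refine (Finset.sum_le_sum fun v _ => (h L hL t ht ε hε hε1 K v S).trans (le_of_eq hX.symm)).trans ?_
    rw [Finset.sum_const, nsmul_eq_mul, card_V]
  have ht0 : 0 < t := by linarith
  calc _ ≤ (1 / (L : ℝ) ^ d) * ((1 / (K : ℝ) ^ 2) * ((L : ℝ) ^ d * X)) :=
        mul_le_mul_of_nonneg_left (h1.trans (mul_le_mul_of_nonneg_left h3 (by positivity)))
          (by positivity)
    _ = X / (K : ℝ) ^ 2 := by field_simp
    _ = _ := by
        rw [hX]
        field_simp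
        ring

end Pool.Agent.R256.DE
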