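import Pool.Agent.R256.DC.Mix

/-!
# Second moments of additive functionals along a walk
-/

set_option autoImplicit false

namespace Pool.Agent.R256.DE

open Finset Equiv
open Pool.Agent.Y998.ST
open Pool.Agent.R256.DC

variable {V : Type} [Fintype V] [DecidableEq V]

/-- weight of a path -/
def PW (q : Matrix V V ℝ) (n : ℕ) (v : V) (y : Fin n → V) : ℝ :=
  ∏ i : Fin n, q ((Fin.cons v y : Fin (n + 1) → V) i.castSucc) (y i)

omit [Fintype V] [DecidableEq V] in
theorem PW_cons (q : Matrix V V ℝ) (n : ℕ) (v w : V) (y : Fin n → V) :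
    PW q (n + 1) v (Fin.cons w y) = q v w * PW q n w y := by
  unfold PW
  rw [Fin.prod_univ_succ]
  congr 1

omit [DecidableEq V] in
theorem sum_cons (n : ℕ) (G : (Fin (n + 1) → V) → ℝ) :
    ∑ y, G y = ∑ w, ∑ y : Fin n → V, G (Fin.cons w y) := by
  classical
  rw [← (Fin.consEquiv (fun _ : Fin (n + 1) => V)).sum_comp, Fintype.sum_prod_type]
  rfl

omit [DecidableEq V] in
theorem PW_sum {q : Matrix V V ℝ} (h : ∀ x, ∑ w, q x w = 1) (n : ℕ) (v : V) :
    ∑ y, PW q n v y = 1 := by
  induction n generalizing v with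
  | zero =>
    rw [Fintype.sum_unique]
    simp [PW]
  | succ n ih =>
    rw [sum_cons]
    simp only [PW_cons, ← Finset.mul_sum, ih, mul_one, h]

theorem S1_eq {q : Matrix V V ℝ} (h : ∀ x, ∑ w, q x w = 1) (f : V → ℝ) (n : ℕ) (v : V) :
    ∑ y, PW q n v y * ∑ i, f (y i) = ∑ j ∈ range n, ∑ w, (q ^ (j + 1)) v w * f w := by
  induction n generalizing v with
  | zero => simp
  | succ n ih =>
    rw [sum_cons]
    have e1 : ∀ w, ∑ y : Fin n → V, PW q (n + 1) v (Fin.cons w y) *
        ∑ i, f ((Fin.cons w y : Fin (n + 1) → V) i) =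
        q v w * f w + q v w * ∑ j ∈ range n, ∑ x, (q ^ (j + 1)) w x * f x := by
      intro w
      rw [← ih w, Finset.mul_sum]
      have : q v w * f w = ∑ y : Fin n → V, q v w * PW q n w y * f w := by
        rw [← Finset.sum_mul, ← Finset.mul_sum, PW_sum h, mul_one]
      rw [this, ← Finset.sum_add_distrib]
      refine Finset.sum_congr rfl fun y _ => ?_
      rw [PW_cons, Fin.sum_univ_succ]
      simp only [Fin.cons_zero, Fin.cons_succ]
      ring
    rw [Finset.sum_congr rfl fun w _ => e1 w, Finset.sum_add_distrib, Finset.sum_range_succ']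
    rw [add_comm]
    congr 1
    · simp only [Finset.mul_sum]
      rw [Finset.sum_comm]
      refine Finset.sum_congr rfl fun j _ => ?_
      rw [Finset.sum_comm]
      refine Finset.sum_congr rfl fun x _ => ?_
      rw [pow_succ' q (j + 1), Matrix.mul_apply, Finset.sum_mul]
      refine Finset.sum_congr rfl fun w _ => ?_
      ring
    · simp

theorem S2_le {q : Matrix V V ℝ} (hq : ∀ x y, 0 ≤ q x y) (h : ∀ x, ∑ w, q x w = 1) (f : V → ℝ)
    (hf : ∀ x, |f x| ≤ 1) (B : ℝ) (n : ℕ)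
    (hB : ∀ m < n, ∀ w, |∑ y, PW q m w y * ∑ i, f (y i)| ≤ B) (v : V) :
    ∑ y, PW q n v y * (∑ i, f (y i)) ^ 2 ≤ n * (1 + 2 * B) := by
  induction n generalizing v with
  | zero => simp
  | succ n ih =>
    have ih' := ih fun m hm => hB m (by omega)
    rw [sum_cons]
    have e1 : ∀ w, ∑ y : Fin n → V, PW q (n + 1) v (Fin.cons w y) *
        (∑ i, f ((Fin.cons w y : Fin (n + 1) → V) i)) ^ 2 =
        q v w * (f w ^ 2 + 2 * f w * (∑ y, PW q n w y * ∑ i, f (y i)) +
          ∑ y, PW q n w y * (∑ i, f (y i)) ^ 2) := by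
      intro w
      have e2 : f w ^ 2 = ∑ y : Fin n → V, PW q n w y * f w ^ 2 := by
        rw [← Finset.sum_mul, PW_sum h, one_mul]
      rw [e2, Finset.mul_sum, ← Finset.sum_add_distrib, ← Finset.sum_add_distrib, Finset.mul_sum]
      refine Finset.sum_congr rfl fun y _ => ?_
      rw [PW_cons, Fin.sum_univ_succ]
      simp only [Fin.cons_zero, Fin.cons_succ]
      ring
    rw [Finset.sum_congr rfl fun w _ => e1 w]
    have e3 : ∀ w, f w ^ 2 + 2 * f w * (∑ y, PW q n w y * ∑ i, f (y i)) +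
          ∑ y, PW q n w y * (∑ i, f (y i)) ^ 2 ≤ (n + 1) * (1 + 2 * B) := by
      intro w
      have h1 := hB n (by omega) w
      have h2 := hf w
      have h3 := ih' w
      have h4 : f w ^ 2 ≤ 1 := by
        rw [← sq_abs]
        nlinarith [abs_nonneg (f w)]
      have h5 : f w * (∑ y, PW q n w y * ∑ i, f (y i)) ≤ B := by
        refine (le_abs_self _).trans ?_
        rw [abs_mul]
        calc |f w| * |∑ y, PW q n w y * ∑ i, f (y i)| ≤ 1 * B :=
              mul_le_mul h2 h1 (abs_nonneg _) zero_le_one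
          _ = B := one_mul B
      nlinarith
    calc ∑ w, q v w * _ ≤ ∑ w, q v w * ((n + 1) * (1 + 2 * B)) :=
          Finset.sum_le_sum fun w _ => mul_le_mul_of_nonneg_left (e3 w) (hq v w)
      _ = (n + 1) * (1 + 2 * B) := by rw [← Finset.sum_mul, h, one_mul]
      _ = _ := by push_cast; ring

/-- the heat kernel is nearly uniform after the relaxation time -/
theorem mix {d L : ℕ} [NeZero L] (hd : 1 ≤ d) (hL : 3 ≤ L) {ε : ℝ} (hε : 0 < ε) (hε1 : ε ≤ 1)
    {s : ℝ} (hs : (2 * d / ε) ^ 2 * (L : ℝ) ^ 2 ≤ s) (a b : Fin d → ZMod L) :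
    |qq (nnRate d L) s a b - 1 / (L : ℝ) ^ d| ≤ ε / (L : ℝ) ^ d := by
  have hd1 : (1 : ℝ) ≤ d := by exact_mod_cast hd
  have hL0 : (0 : ℝ) < L := by exact_mod_cast (show 0 < L by omega)
  have hs0 : 0 < s := lt_of_lt_of_le (by positivity) hs
  have hst : 0 < Real.sqrt s := Real.sqrt_pos.2 hs0
  obtain ⟨x, hx⟩ : ∃ x : ℝ, x = ε / (2 * d) := ⟨_, rfl⟩
  have hx0 : 0 < x := by rw [hx]; positivity
  have hxd : d * x = ε / 2 := by rw [hx]; field_simp
  have hx1 : x ≤ 1 / 2 := by nlinarith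
  have h1 : 2 * (d : ℝ) / ε * L ≤ Real.sqrt s := by
    apply Real.le_sqrt_of_sq_le
    rw [mul_pow]
    exact hs
  have h2 : 1 / Real.sqrt s ≤ x / L := by
    have e : x / L = 1 / (2 * (d : ℝ) / ε * L) := by rw [hx]; field_simp
    rw [e]
    exact one_div_le_one_div_of_le (by positivity) h1
  have hlow : 1 - d * x ≤ (1 - x) ^ d := by
    have := one_add_mul_le_pow (show (-2 : ℝ) ≤ -x by linarith) d
    calc 1 - d * x = 1 + d * -x := by ring
      _ ≤ (1 + -x) ^ d := this
      _ = (1 - x) ^ d := by ring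
  have hup : (1 + x) ^ d ≤ 1 + 2 * (d * x) := by
    have h3 : (1 + x) ^ d * (1 - x) ^ d ≤ 1 := by
      rw [← mul_pow]
      apply pow_le_one₀ (by nlinarith) (by nlinarith)
    have h4 : 0 < (1 + x) ^ d := by positivity
    have h5 : (1 + x) ^ d * (1 - d * x) ≤ 1 :=
      (mul_le_mul_of_nonneg_left hlow h4.le).trans h3
    have h6 : 1 ≤ (1 + 2 * (d * x)) * (1 - d * x) := by
      rw [hxd]
      nlinarith
    have h7 : 0 < 1 - d * x := by rw [hxd]; linarith
    exact le_of_mul_le_mul_right (h5.trans h6) h7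
  rw [abs_le]
  constructor
  · have h3 : (1 / (L : ℝ) * (1 - x)) ^ d ≤ qq (nnRate d L) s a b := by
      rw [qq_eq_hk hL]
      unfold hk
      calc (1 / (L : ℝ) * (1 - x)) ^ d = ∏ _i : Fin d, (1 / (L : ℝ) * (1 - x)) := by
            rw [Finset.prod_const, Finset.card_univ, Fintype.card_fin]
        _ ≤ ∏ i, gk L s (b i - a i) := by
            refine Finset.prod_le_prod (fun i _ => mul_nonneg (by positivity) (by linarith))
              fun i _ => ?_
            refine le_trans ?_ (gk_lower hs0 _)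
            have : 1 / (L : ℝ) * (1 - x) = 1 / L - x / L := by ring
            rw [this]
            linarith
    rw [mul_pow, one_div_pow] at h3
    have h4 : 1 / (L : ℝ) ^ d * (1 - ε) ≤ 1 / (L : ℝ) ^ d * (1 - x) ^ d := by
      refine mul_le_mul_of_nonneg_left ?_ (by positivity)
      rw [hxd] at hlow
      linarith
    have h5 : 1 / (L : ℝ) ^ d * (1 - ε) = 1 / (L : ℝ) ^ d - ε / (L : ℝ) ^ d := by ring
    linarith
  · have h3 := qq_torus (d := d) hL hs0 a b
    have h4 : (1 / (L : ℝ) + 1 / Real.sqrt s) ^ d ≤ (1 / (L : ℝ) * (1 + x)) ^ d := by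
      refine pow_le_pow_left₀ (by positivity) ?_ d
      have : 1 / (L : ℝ) * (1 + x) = 1 / L + x / L := by ring
      rw [this]
      linarith
    rw [mul_pow, one_div_pow] at h4
    have h5 : 1 / (L : ℝ) ^ d * (1 + x) ^ d ≤ 1 / (L : ℝ) ^ d * (1 + ε) := by
      refine mul_le_mul_of_nonneg_left ?_ (by positivity)
      rw [hxd] at hup
      linarith
    have h6 : 1 / (L : ℝ) ^ d * (1 + ε) = 1 / (L : ℝ) ^ d + ε / (L : ℝ) ^ d := by ring
    linarith

end Pool.Agent.R256.DE
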